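import Pool.Agent.T2h88.BW.Top

set_option autoImplicit false

/-! # Bounded windows with many even congruent numbers in all residue classes

Let `M ≥ 1`. There are `C` and `c > 0` such that for all large `X` and all `1 ≤ K ≤ c X ^ (1/4)` at least
`c X ^ (1/4)` integers `N` in `[X, 2 X]` have the following property: the window `(N - C K ^ 4, N]` contains,
for EVERY residue class modulo `M` with an even squarefree number, at least `K` even squarefree congruent
numbers of the class. With `K` fixed this gives bounded gaps between even squarefree congruent numbers in all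
these classes at once, in particular in the class `2` modulo `8` (sign `+1` of the functional
equation), in which the condition `2 |C_n| = |D_n|` of the problem is a real condition.

Proof: the numbers are `n = (s ^ 4 - j ^ 4) / (4 W) ^ 2`, `W = 4 M ^ 2`, with `s` of order `X ^ (1/4)`, `s ≡ 1`
modulo `16 W ^ 3`, and `j ≤ C' K` in classes modulo `4 W ^ 3`; the class of `j` determines the class of
`n` modulo `W`, and all classes occur. The squares of large primes are removed on the average over `s` and `j`.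
-/

namespace Pool.Agent.Results.MP_f126a2_nt.EvenBoundedWindows

/-- `n` is the area of a right triangle with rational sides -/
def IsCongruent (n : ℕ) : Prop :=
  ∃ a b c : ℚ, 0 < a ∧ 0 < b ∧ 0 < c ∧ a ^ 2 + b ^ 2 = c ^ 2 ∧ (n : ℚ) = a * b / 2

/-- For every residue class `a` modulo `M` which contains an even squarefree number the window `(N - L, N]`
contains at least `K` even squarefree congruent numbers `n ≡ a` modulo `M`. -/
def RichWindow (M K L N : ℕ) : Prop :=
  ∀ a : ℕ, (∃ k : ℕ, Squarefree k ∧ Even k ∧ k ≡ a [MOD M]) →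
    K ≤ {n : ℕ | N < n + L ∧ n ≤ N ∧ Squarefree n ∧ Even n ∧ n ≡ a [MOD M] ∧ IsCongruent n}.ncard

/-- For all large `X` and all `1 ≤ K ≤ c X ^ (1/4)` there are at least `c X ^ (1/4)` integers `N` in `[X, 2 X]`
such that the window `(N - C K ^ 4, N]` has at least `K` even squarefree congruent numbers in every residue
class modulo `M` which contains an even squarefree number. -/
theorem result (M : ℕ) (hM : 0 < M) :
    ∃ C : ℕ, ∃ c : ℝ, 0 < c ∧ ∃ X₀ : ℕ, ∀ X : ℕ, X₀ ≤ X → ∀ K : ℕ, 1 ≤ K →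
      (K : ℝ) ≤ c * (X : ℝ) ^ (1 / 4 : ℝ) →
      c * (X : ℝ) ^ (1 / 4 : ℝ) ≤
        (({N : ℕ | X ≤ N ∧ N ≤ 2 * X ∧ RichWindow M K (C * K ^ 4) N}.ncard : ℕ) : ℝ) := by
  obtain ⟨C, c, hc, X₀, h⟩ := Pool.Agent.T2h88.BW.main (4 * M ^ 2) (by positivity)
    ⟨2 * M ^ 2, by ring⟩ (by
      intro p hp hd
      rcases (Nat.Prime.dvd_mul hp).1 hd with hd | hd
      · have h2 : p ∣ 2 ^ 2 := by simpa using hd
        have h3 : p = 2 := (Nat.prime_dvd_prime_iff_eq hp Nat.prime_two).1 (hp.dvd_of_dvd_pow h2)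
        subst h3
        exact ⟨M ^ 2, by ring⟩
      · have h2 : p ∣ M := hp.dvd_of_dvd_pow hd
        exact (pow_dvd_pow_of_dvd h2 2).mul_left 4)
  refine ⟨C, c, hc, X₀, fun X hX K hK hKX => (h X hX K hK hKX).trans ?_⟩
  have hfin : {N : ℕ | X ≤ N ∧ N ≤ 2 * X ∧ RichWindow M K (C * K ^ 4) N}.Finite :=
    (Set.finite_Iic (2 * X)).subset fun N hN => hN.2.1
  have hsub : {N : ℕ | X ≤ N ∧ N ≤ 2 * X ∧ ∀ k : ℕ, Squarefree k →
        K ≤ {n : ℕ | N < n + C * K ^ 4 ∧ n ≤ N ∧ Squarefree n ∧ n ≡ k [MOD 4 * M ^ 2] ∧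
          Pool.Agent.T2h88.BW.IsCongruent n}.ncard} ⊆
      {N : ℕ | X ≤ N ∧ N ≤ 2 * X ∧ RichWindow M K (C * K ^ 4) N} := by
    rintro N ⟨h1, h2, h3⟩
    refine ⟨h1, h2, ?_⟩
    rintro a ⟨k, hk, hko, hka⟩
    refine (h3 k hk).trans (Set.ncard_le_ncard ?_
      ((Set.finite_Iic N).subset fun n hn => hn.2.1))
    rintro n ⟨a1, a2, a3, a4, a5⟩
    refine ⟨a1, a2, a3, ?_, ?_, a5⟩
    · have h6 : n ≡ k [MOD 2] := a4.of_dvd ⟨2 * M ^ 2, by ring⟩
      rw [Nat.even_iff] at hko ⊢
      unfold Nat.ModEq at h6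
      omega
    · exact (a4.of_dvd ⟨4 * M, by ring⟩).trans hka
  exact_mod_cast Set.ncard_le_ncard hsub hfin

end Pool.Agent.Results.MP_f126a2_nt.EvenBoundedWindows
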