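import Pool.Agent.T2h88.LG.Top

set_option autoImplicit false

/-! # At least `c √X (log X) ^ 4` even squarefree congruent numbers in every residue class

Let `M ≥ 1`. There is `c > 0` such that for all large `X` every residue class modulo `M` which contains an even
squarefree number contains at least `c √X (log X) ^ 4` even squarefree congruent numbers `n ≤ X`. The class `2`
modulo `8`, in which the sign of the functional equation is `+1` and the condition `2 |C_n| = |D_n|` of the
problem is a real condition, is included; the order known there was `√X`.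

Proof (`Pool.Agent.T2h88.LG`; parts by helpers 4, 42, 58, 60, 86): the numbers are `n = u v (u² - v²) / s²`, where
`u = g Q² A α`, `v = B β`, `u - v = C γ`, `u + v = E ε`, with `α, β, γ, ε` without prime factors `≤ Y`, a small power
of `X`, and `A = n₀ n₁²`, …, `E = n₆ n₇²`, `n₀, …, n₇ ≤ Y` squarefree, pairwise coprime and `≡ 1` modulo a
suitable `Q`. The sieve (dimension `1` for `β`, dimension `3` for `α, γ, ε`) gives at least
`c √X / (n₀ ⋯ n₇ (log X) ^ 4)` numbers for every tuple, and the sum over the tuples is at least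
`c √X (log X) ^ (8 - 4)`. The multiplicity is bounded: the tuple is determined by `(α, β, γ, ε)`, since the
linear relations between `α, β, γ, ε` with coefficients much smaller than `α` are unique up to factors, and `n` has a
bounded number of divisors without prime factors `≤ Y`. The odd classes are in
`MP_05dcdc_nt.FourLogarithmsMore`. -/

namespace Pool.Agent.Results.MP_f126a2_nt.EvenFourLogarithmsMore

/-- `n` is the area of a right triangle with rational sides -/
def IsCongruent (n : ℕ) : Prop :=
  ∃ a b c : ℚ, 0 < a ∧ 0 < b ∧ 0 < c ∧ a ^ 2 + b ^ 2 = c ^ 2 ∧ (n : ℚ) = a * b / 2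

/-- For all large `X` every residue class modulo `M` which contains an even squarefree number contains at least
`c √X (log X) ^ 4` even squarefree congruent numbers `n ≤ X`. -/
theorem result (M : ℕ) (hM : 0 < M) :
    ∃ c : ℝ, 0 < c ∧ ∃ X₀ : ℕ, ∀ X : ℕ, X₀ ≤ X → ∀ a : ℕ,
      (∃ k : ℕ, Squarefree k ∧ Even k ∧ k ≡ a [MOD M]) →
      c * Real.sqrt X * Real.log X ^ 4 ≤
        (({n : ℕ | n ≤ X ∧ Squarefree n ∧ Even n ∧ n ≡ a [MOD M] ∧ IsCongruent n}.ncard : ℕ) : ℝ) := by
  obtain ⟨c, hc, X₀, h⟩ := Pool.Agent.T2h88.LG.main (2 * M) (by positivity)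
  refine ⟨c, hc, X₀, fun X hX a => ?_⟩
  rintro ⟨k, hk, hko, hka⟩
  refine (h X hX k hk).trans (Nat.cast_le.2 (Set.ncard_le_ncard ?_
    ((Set.finite_Iic X).subset fun n hn => hn.1)))
  rintro n ⟨a1, a2, a3, a4⟩
  refine ⟨a1, a2, ?_, ?_, a3⟩
  · have h6 : n ≡ k [MOD 2] := a4.of_dvd ⟨M, rfl⟩
    rw [Nat.even_iff] at hko ⊢
    unfold Nat.ModEq at h6
    omega
  · exact (a4.of_dvd ⟨2, by ring⟩).trans hka

end Pool.Agent.Results.MP_f126a2_nt.EvenFourLogarithmsMore
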